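import Pool.Agent.Helper60.NQ.LemD

/-!
# Lemma D for nodes
-/

set_option autoImplicit false

namespace Pool.Agent.Helper60.NQ

open Finset

section defs

variable {n d : ℕ} {F W X : Type} [AddCommGroup F] [DecidableEq F] [AddCommGroup X] [DecidableEq X] [DecidableEq W]

/-- The nodes with a change. -/
def supp (e : Fin n → Fin d → F) : Finset (Fin n) := univ.filter fun u => e u ≠ 0

/-- The places of the nodes of `K` are not read. -/
def Unread (U : X → Fin n → Finset W) (x : X) (K : Finset (Fin n)) (b : Fin n → Fin d → W) : Prop :=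
  ∀ u ∈ K, ∀ j, b u j ∈ U x u

open Classical in
/-- The number of arrows into `x` with the support `K`. -/
noncomputable def inK [Fintype F] [Fintype W] (D : (Fin n → Fin d → W) → ((Fin n → Fin d → F) →+ X))
    (U : X → Fin n → Finset W) (E : Finset X) (K : Finset (Fin n)) (x : X) : ℕ :=
  (univ.filter fun p : (Fin n → Fin d → W) × (Fin n → Fin d → F) =>
    supp p.2 = K ∧ x - D p.1 p.2 ∈ E ∧ Unread U (x - D p.1 p.2) K p.1).card

end defs

section ext

variable {n d : ℕ} {F : Type} [AddCommGroup F]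

/-- Extension by zero. -/
def ext (J0 : Finset (Fin n)) : (J0 → Fin d → F) →+ (Fin n → Fin d → F) where
  toFun e u := if h : u ∈ J0 then e ⟨u, h⟩ else 0
  map_zero' := by
    funext u
    split_ifs <;> rfl
  map_add' e e' := by
    funext u
    by_cases h : u ∈ J0
    · simp [h]
    · simp [h]

theorem ext_apply (J0 : Finset (Fin n)) (e : J0 → Fin d → F) (u : Fin n) (h : u ∈ J0) :
    ext J0 e u = e ⟨u, h⟩ := dif_pos h

theorem ext_injective (J0 : Finset (Fin n)) : Function.Injective (ext (d := d) (F := F) J0) := by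
  intro e e' h
  funext u
  rw [← ext_apply J0 e u.1 u.2, h, ext_apply J0 e' u.1 u.2]

theorem supp_ext [DecidableEq F] (J0 : Finset (Fin n)) (e : J0 → Fin d → F) : supp (ext J0 e) ⊆ J0 := by
  intro u hu
  by_contra h
  rw [supp, mem_filter] at hu
  exact hu.2 (dif_neg h)

end ext

variable {n d : ℕ} {F W X : Type} [AddCommGroup F] [Fintype F] [DecidableEq F] [Fintype W] [DecidableEq W]
  [AddCommGroup X] [Fintype X] [DecidableEq X]

open Classical in
theorem card_small (J0 : Finset (Fin n)) (κ : ℕ) :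
    (univ.filter fun e : J0 → Fin d → F => (supp (ext J0 e)).card < κ).card ≤
      2 ^ n * Fintype.card F ^ (d * κ) := by
  have h1 : (univ.filter fun e : J0 → Fin d → F => (supp (ext J0 e)).card < κ).card ≤
      (((univ : Finset (Fin n)).powerset.filter fun K => K.card < κ).sigma fun K =>
        univ.filter fun e : Fin n → Fin d → F => supp e = K).card := by
    refine card_le_card_of_injOn (fun e => ⟨supp (ext J0 e), ext J0 e⟩) ?_ ?_
    · intro e he
      rw [mem_coe, mem_filter] at he
      rw [mem_coe, mem_sigma, mem_filter, mem_filter]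
      exact ⟨⟨mem_powerset.2 (subset_univ _), he.2⟩, mem_univ _, rfl⟩
    · intro e _ e' _ h
      simp only [Sigma.mk.injEq, heq_eq_eq] at h
      exact ext_injective J0 h.2
  refine h1.trans ?_
  rw [card_sigma]
  have h2 : ∀ K ∈ (univ : Finset (Fin n)).powerset.filter fun K => K.card < κ,
      (univ.filter fun e : Fin n → Fin d → F => supp e = K).card ≤ Fintype.card F ^ (d * κ) := by
    intro K hK
    rw [mem_filter] at hK
    have h3 : (univ.filter fun e : Fin n → Fin d → F => supp e = K).card ≤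
        (univ : Finset (K → Fin d → F)).card := by
      refine card_le_card_of_injOn (fun e u => e u.1) (fun _ _ => mem_coe.2 (mem_univ _)) ?_
      intro e he e' he' h
      rw [mem_coe, mem_filter] at he he'
      funext u
      by_cases hu : u ∈ K
      · exact congrFun h ⟨u, hu⟩
      · have h4 : e u = 0 := by
          by_contra h5
          exact hu (he.2 ▸ mem_filter.2 ⟨mem_univ _, h5⟩)
        have h5 : e' u = 0 := by
          by_contra h6
          exact hu (he'.2 ▸ mem_filter.2 ⟨mem_univ _, h6⟩)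
        rw [h4, h5]
    refine h3.trans ?_
    rw [card_univ, Fintype.card_fun, Fintype.card_fun, Fintype.card_coe, Fintype.card_fin, ← pow_mul]
    exact Nat.pow_le_pow_right Fintype.card_pos (Nat.mul_le_mul_left _ hK.2.le)
  calc ∑ K ∈ (univ : Finset (Fin n)).powerset.filter fun K => K.card < κ,
        (univ.filter fun e : Fin n → Fin d → F => supp e = K).card
      ≤ ∑ _K ∈ (univ : Finset (Fin n)).powerset.filter fun K => K.card < κ, Fintype.card F ^ (d * κ) :=
        sum_le_sum h2
    _ = ((univ : Finset (Fin n)).powerset.filter fun K => K.card < κ).card * Fintype.card F ^ (d * κ) := by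
        rw [sum_const, smul_eq_mul]
    _ ≤ 2 ^ n * Fintype.card F ^ (d * κ) := by
        refine Nat.mul_le_mul_right _ ((card_le_card (filter_subset _ _)).trans ?_)
        rw [card_powerset, card_univ, Fintype.card_fin]

/-- Lemma D. -/
theorem lemmaD (D : (Fin n → Fin d → W) → ((Fin n → Fin d → F) →+ X)) (U : X → Fin n → Finset W)
    (E G : Finset X) (hG : G ⊆ E) (J0 : Finset (Fin n)) (h κ : ℕ) (ρ : ℝ) (hρ : 0 ≤ ρ) (hh : 0 < h)
    (hU : ∀ x ∈ G, ∀ u ∈ J0, h ≤ (U x u).card)
    (hrho : 2 ^ n * ρ ≤ ((h : ℝ) / Fintype.card W) ^ (d * J0.card))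
    (hin : ∀ x ∈ G, ∀ K ⊆ J0, κ ≤ K.card →
      (inK D U E K x : ℝ) ≤ ρ * Fintype.card (Fin n → Fin d → W)) :
    (G.card : ℝ) ≤ 8 * 2 ^ n * (Fintype.card F : ℝ) ^ (d * κ) *
      ((Fintype.card W : ℝ) / (h * Fintype.card F)) ^ (d * J0.card) * Fintype.card X := by
  classical
  have hq1 : (1 : ℝ) ≤ Fintype.card F := by exact_mod_cast Fintype.card_pos (α := F)
  have h2n : (1 : ℝ) ≤ 2 ^ n := one_le_pow₀ (by norm_num)
  have hqk : (1 : ℝ) ≤ (Fintype.card F : ℝ) ^ (d * κ) := one_le_pow₀ hq1
  rcases G.eq_empty_or_nonempty with hGe | ⟨x0, hx0⟩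
  · rw [hGe, card_empty, Nat.cast_zero]
    positivity
  rcases J0.eq_empty_or_nonempty with hJe | ⟨u0, hu0⟩
  · rw [hJe, card_empty, mul_zero, pow_zero, mul_one]
    have h1 : (G.card : ℝ) ≤ Fintype.card X := by exact_mod_cast card_le_univ G
    have h3 : (1 : ℝ) ≤ 2 ^ n * (Fintype.card F : ℝ) ^ (d * κ) := one_le_mul_of_one_le_of_one_le h2n hqk
    calc (G.card : ℝ) ≤ 1 * Fintype.card X := by rw [one_mul]; exact h1
      _ ≤ (8 * 2 ^ n * (Fintype.card F : ℝ) ^ (d * κ)) * Fintype.card X := by
          refine mul_le_mul_of_nonneg_right ?_ (Nat.cast_nonneg _)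
          nlinarith
  have hL : h ≤ Fintype.card W := (hU x0 hx0 u0 hu0).trans (card_le_univ _)
  have hL0 : 0 < Fintype.card W := lt_of_lt_of_le hh hL
  set L := Fintype.card W with hLdef
  set q := Fintype.card F with hqdef
  set j := J0.card with hj
  have hjn : j ≤ n := by
    have := card_le_univ J0
    rwa [Fintype.card_fin] at this
  set U' : X → Finset (Fin n → Fin d → W) := fun x =>
    Fintype.piFinset fun u => Fintype.piFinset fun _ => if u ∈ J0 then U x u else univ with hU'
  set Sm : Finset (J0 → Fin d → F) := univ.filter fun e => (supp (ext J0 e)).card < κ with hSm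
  set w : ℕ := (h ^ j * L ^ (n - j)) ^ d with hw
  have hcard : ∀ x ∈ G, w ≤ (U' x).card := by
    intro x hx
    rw [hU', Fintype.card_piFinset]
    have h1 : ∀ u : Fin n, (Fintype.piFinset fun _ : Fin d => if u ∈ J0 then U x u else univ).card =
        (if u ∈ J0 then (U x u).card else L) ^ d := by
      intro u
      rw [Fintype.card_piFinset, prod_const, card_univ, Fintype.card_fin]
      congr 1
      split_ifs
      · rfl
      · rw [card_univ]
    calc w = ∏ u : Fin n, (if u ∈ J0 then h else L) ^ d := by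
          rw [prod_pow, hw]
          congr 1
          rw [prod_ite, prod_const, prod_const]
          congr 2
          · rw [hj]
            congr 1
            ext u
            simp
          · rw [filter_not, card_sdiff_of_subset (filter_subset _ _), card_univ, Fintype.card_fin, hj]
            congr 2
            ext u
            simp
      _ ≤ ∏ u : Fin n, (if u ∈ J0 then (U x u).card else L) ^ d := by
          refine prod_le_prod' fun u _ => Nat.pow_le_pow_left ?_ d
          split_ifs with h3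
          · exact hU x hx u h3
          · exact le_rfl
      _ = _ := prod_congr rfl fun u _ => (h1 u).symm
  have harr : ∀ x ∈ G, (univ.filter fun p : (J0 → Fin d → F) × (Fin n → Fin d → W) => p.1 ∉ Sm ∧
      x - ((D p.2).comp (ext J0)) p.1 ∈ G ∧ p.2 ∈ U' (x - ((D p.2).comp (ext J0)) p.1)).card ≤ w := by
    intro x hx
    have h1 : (univ.filter fun p : (J0 → Fin d → F) × (Fin n → Fin d → W) => p.1 ∉ Sm ∧
        x - ((D p.2).comp (ext J0)) p.1 ∈ G ∧ p.2 ∈ U' (x - ((D p.2).comp (ext J0)) p.1)).card ≤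
        ((J0.powerset.filter fun K => κ ≤ K.card).sigma fun K =>
          univ.filter fun p : (Fin n → Fin d → W) × (Fin n → Fin d → F) =>
            supp p.2 = K ∧ x - D p.1 p.2 ∈ E ∧ Unread U (x - D p.1 p.2) K p.1).card := by
      refine card_le_card_of_injOn (fun p => ⟨supp (ext J0 p.1), (p.2, ext J0 p.1)⟩) ?_ ?_
      · rintro ⟨e, b⟩ hp
        rw [mem_coe, mem_filter] at hp
        obtain ⟨-, h3, h4, h5⟩ := hp
        rw [mem_coe, mem_sigma, mem_filter, mem_filter]
        refine ⟨⟨mem_powerset.2 (supp_ext J0 e), ?_⟩, mem_univ _, rfl, hG h4, ?_⟩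
        · rw [hSm, mem_filter] at h3
          by_contra h6
          exact h3 ⟨mem_univ _, not_le.1 h6⟩
        · intro u hu i
          have h6 : u ∈ J0 := supp_ext J0 e hu
          have h7 := Fintype.mem_piFinset.1 (Fintype.mem_piFinset.1 h5 u) i
          rw [if_pos h6] at h7
          exact h7
      · rintro ⟨e, b⟩ _ ⟨e', b'⟩ _ h3
        simp only [Sigma.mk.injEq, heq_eq_eq, Prod.mk.injEq] at h3
        rw [ext_injective J0 h3.2.2, h3.2.1]
    have h2 : (((J0.powerset.filter fun K => κ ≤ K.card).sigma fun K =>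
          univ.filter fun p : (Fin n → Fin d → W) × (Fin n → Fin d → F) =>
            supp p.2 = K ∧ x - D p.1 p.2 ∈ E ∧ Unread U (x - D p.1 p.2) K p.1).card : ℝ) ≤ w := by
      rw [card_sigma]
      push_cast
      calc ∑ K ∈ J0.powerset.filter fun K => κ ≤ K.card,
            ((univ.filter fun p : (Fin n → Fin d → W) × (Fin n → Fin d → F) =>
              supp p.2 = K ∧ x - D p.1 p.2 ∈ E ∧ Unread U (x - D p.1 p.2) K p.1).card : ℝ)
          ≤ ∑ _K ∈ J0.powerset.filter fun K => κ ≤ K.card, ρ * Fintype.card (Fin n → Fin d → W) := by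
            refine sum_le_sum fun K hK => ?_
            rw [mem_filter, mem_powerset] at hK
            exact hin x hx K hK.1 hK.2
        _ = ((J0.powerset.filter fun K => κ ≤ K.card).card : ℝ) *
              (ρ * Fintype.card (Fin n → Fin d → W)) := by rw [sum_const, nsmul_eq_mul]
        _ ≤ 2 ^ n * (ρ * Fintype.card (Fin n → Fin d → W)) := by
            refine mul_le_mul_of_nonneg_right ?_ (by positivity)
            have h3 : (J0.powerset.filter fun K => κ ≤ K.card).card ≤ 2 ^ n := by
              refine (card_le_card (filter_subset _ _)).trans ?_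
              rw [card_powerset]
              exact Nat.pow_le_pow_right (by norm_num) hjn
            exact_mod_cast h3
        _ = (2 ^ n * ρ) * Fintype.card (Fin n → Fin d → W) := by ring
        _ ≤ ((h : ℝ) / L) ^ (d * j) * Fintype.card (Fin n → Fin d → W) :=
            mul_le_mul_of_nonneg_right hrho (Nat.cast_nonneg _)
        _ = w := by
            rw [Fintype.card_fun, Fintype.card_fun, Fintype.card_fin, Fintype.card_fin, ← hLdef, hw]
            push_cast
            have hLne : (L : ℝ) ≠ 0 := by exact_mod_cast hL0.ne'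
            rw [div_pow, mul_pow, ← pow_mul, ← pow_mul, ← pow_mul, mul_comm d n, mul_comm d j]
            rw [div_mul_eq_mul_div, div_eq_iff (by positivity), mul_assoc, ← pow_add]
            congr 2
            rw [← Nat.add_mul, Nat.sub_add_cancel hjn]
    have h3 : ((univ.filter fun p : (J0 → Fin d → F) × (Fin n → Fin d → W) => p.1 ∉ Sm ∧
        x - ((D p.2).comp (ext J0)) p.1 ∈ G ∧ p.2 ∈ U' (x - ((D p.2).comp (ext J0)) p.1)).card : ℝ) ≤ w :=
      le_trans (by exact_mod_cast h1) h2
    exact_mod_cast h3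
  have key := lemD (fun b => (D b).comp (ext J0)) G U' Sm (2 ^ n * q ^ (d * κ)) w (card_small J0 κ) hcard
    (fun x hx => le_trans (le_of_eq (by congr)) (harr x hx))
  have hV : Fintype.card (J0 → Fin d → F) = (q ^ d) ^ j := by
    rw [Fintype.card_fun, Fintype.card_fun, Fintype.card_coe, Fintype.card_fin]
  have hY : Fintype.card (Fin n → Fin d → W) = (L ^ d) ^ n := by
    rw [Fintype.card_fun, Fintype.card_fun, Fintype.card_fin, Fintype.card_fin]
  rw [hV, hY] at key
  have key' : (G.card : ℝ) * ((h : ℝ) ^ j * (L : ℝ) ^ (n - j)) ^ d * ((q : ℝ) ^ d) ^ j ≤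
      4 * (2 ^ n * (q : ℝ) ^ (d * κ) + 1) * (((L : ℝ) ^ d) ^ n * Fintype.card X) := by
    have := key
    rw [hw] at this
    exact_mod_cast this
  have hLr : (0 : ℝ) < L := by exact_mod_cast hL0
  have hhr : (0 : ℝ) < h := by exact_mod_cast hh
  have hqr : (0 : ℝ) < q := by linarith
  have h8 : 4 * (2 ^ n * (q : ℝ) ^ (d * κ) + 1) ≤ 8 * 2 ^ n * (q : ℝ) ^ (d * κ) := by
    have h3 : (1 : ℝ) ≤ 2 ^ n * (q : ℝ) ^ (d * κ) := one_le_mul_of_one_le_of_one_le h2n hqk
    linarith
  have hpos : (0 : ℝ) < ((h : ℝ) ^ j * (L : ℝ) ^ (n - j)) ^ d * ((q : ℝ) ^ d) ^ j := by positivity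
  have heq : ((L : ℝ) ^ d) ^ n = ((L : ℝ) / (h * q)) ^ (d * j) *
      (((h : ℝ) ^ j * (L : ℝ) ^ (n - j)) ^ d * ((q : ℝ) ^ d) ^ j) := by
    have h9 : ((L : ℝ) ^ d) ^ n = (L : ℝ) ^ (d * j) * (L : ℝ) ^ (d * (n - j)) := by
      rw [← pow_mul, ← pow_add, ← Nat.mul_add, Nat.add_sub_cancel' hjn]
    rw [h9, div_pow, mul_pow, mul_pow, ← pow_mul, ← pow_mul, ← pow_mul, mul_comm j d,
      mul_comm (n - j) d]
    field_simp
  refine le_of_mul_le_mul_right ?_ hpos
  calc (G.card : ℝ) * (((h : ℝ) ^ j * (L : ℝ) ^ (n - j)) ^ d * ((q : ℝ) ^ d) ^ j)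
      = (G.card : ℝ) * ((h : ℝ) ^ j * (L : ℝ) ^ (n - j)) ^ d * ((q : ℝ) ^ d) ^ j := by ring
    _ ≤ 4 * (2 ^ n * (q : ℝ) ^ (d * κ) + 1) * (((L : ℝ) ^ d) ^ n * Fintype.card X) := key'
    _ ≤ (8 * 2 ^ n * (q : ℝ) ^ (d * κ)) * (((L : ℝ) ^ d) ^ n * Fintype.card X) :=
        mul_le_mul_of_nonneg_right h8 (by positivity)
    _ = _ := by rw [heq]; ring

end Pool.Agent.Helper60.NQ
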