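import Mathlib

/-!
# Lemma D: counting with random small subcubes in the unread part
-/

set_option autoImplicit false

namespace Pool.Agent.Helper60.NQ

open Finset

section

variable {X Y V : Type*} [AddCommGroup X] [Fintype X] [AddCommGroup V] [Fintype V] [Fintype Y]
  [DecidableEq X] (D : Y → V →+ X)

open Classical in
/-- The number of moved points `x + D b e` in `G`. -/
noncomputable def num (G : Finset X) (x : X) (b : Y) : ℕ := (univ.filter fun e : V => x + D b e ∈ G).card

omit [Fintype Y] in
open Classical in
/-- For a fixed `b` few points of `G` have few moved points in `G`. -/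
theorem few (G : Finset X) (b : Y) (M : ℕ) :
    (G.filter fun x => num D G x b ≤ M).card * Fintype.card V ≤ M * Fintype.card X := by
  have h1 : (G.filter fun x => num D G x b ≤ M).card * Fintype.card V =
      ∑ z : X, (univ.filter fun e : V => z - D b e ∈ G.filter fun x => num D G x b ≤ M).card := by
    have h2 : ((G.filter fun x => num D G x b ≤ M) ×ˢ (univ : Finset V)).card =
        ∑ z : X, (univ.filter fun e : V => z - D b e ∈ G.filter fun x => num D G x b ≤ M).card := by
      rw [card_eq_sum_card_fiberwise (f := fun p : X × V => p.1 + D b p.2) (t := univ)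
        (fun _ _ => mem_univ _)]
      refine sum_congr rfl fun z _ => ?_
      refine card_bij' (fun p _ => p.2) (fun e _ => (z - D b e, e)) ?_ ?_ ?_ ?_
      · rintro ⟨x, e⟩ h
        rw [mem_filter, mem_product] at h
        rw [mem_filter]
        refine ⟨mem_univ _, ?_⟩
        have h3 : z - D b e = x := by rw [← h.2]; simp
        rw [h3]
        exact h.1.1
      · intro e h
        rw [mem_filter] at h
        rw [mem_filter, mem_product]
        exact ⟨⟨h.2, mem_univ _⟩, by simp⟩
      · rintro ⟨x, e⟩ h
        rw [mem_filter, mem_product] at h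
        have h3 : z - D b e = x := by rw [← h.2]; simp
        simp only [h3]
      · intro e _
        rfl
    rw [← h2, card_product, card_univ]
  rw [h1]
  calc ∑ z : X, (univ.filter fun e : V => z - D b e ∈ G.filter fun x => num D G x b ≤ M).card
      ≤ ∑ _z : X, M := by
        refine sum_le_sum fun z _ => ?_
        rcases (univ.filter fun e : V => z - D b e ∈ G.filter fun x => num D G x b ≤ M).eq_empty_or_nonempty
          with h | ⟨e0, he0⟩
        · rw [h]
          exact Nat.zero_le _
        · rw [mem_filter, mem_filter] at he0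
          refine le_trans ?_ he0.2.2
          unfold num
          refine card_le_card_of_injOn (fun e => e0 - e) ?_ ?_
          · intro e he
            rw [mem_coe, mem_filter, mem_filter] at he
            rw [mem_coe, mem_filter]
            refine ⟨mem_univ _, ?_⟩
            have h4 : z - D b e0 + D b (e0 - e) = z - D b e := by rw [map_sub]; abel
            rw [h4]
            exact he.2.1
          · intro e _ e' _ h
            exact sub_right_injective h
    _ = M * Fintype.card X := by rw [sum_const, card_univ, smul_eq_mul, mul_comm]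

open Classical in
/-- Lemma D. `U x` = the vectors of places which are not read in the run which belongs to `x`; `D b e` = the change of the
input at the places `b` by the amounts `e`; `Sm` = the amounts with small support. -/
theorem lemD (G : Finset X) (U : X → Finset Y) (Sm : Finset V) (s u : ℕ) (hs : Sm.card ≤ s)
    (hu : ∀ x ∈ G, u ≤ (U x).card)
    (ha : ∀ x ∈ G, (univ.filter fun p : V × Y => p.1 ∉ Sm ∧ x - D p.2 p.1 ∈ G ∧
      p.2 ∈ U (x - D p.2 p.1)).card ≤ u) :
    G.card * u * Fintype.card V ≤ 4 * (s + 1) * (Fintype.card Y * Fintype.card X) := by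
  set A : Finset (X × Y) := univ.filter fun p => p.1 ∈ G ∧ p.2 ∈ U p.1 with hA
  have h1 : G.card * u ≤ A.card := by
    have h2 : A.card = ∑ x ∈ G, (U x).card := by
      rw [card_eq_sum_card_fiberwise (f := fun p : X × Y => p.1) (t := G)
        (fun p hp => (mem_filter.1 (mem_coe.1 hp)).2.1)]
      refine sum_congr rfl fun x hx => ?_
      refine card_bij' (fun p _ => p.2) (fun b _ => (x, b)) ?_ ?_ ?_ ?_
      · rintro ⟨x', b⟩ h
        rw [mem_filter, hA, mem_filter] at h
        have h3 : x' = x := h.2
        rw [← h3]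
        exact h.1.2.2
      · intro b hb
        rw [mem_filter, hA, mem_filter]
        exact ⟨⟨mem_univ _, hx, hb⟩, rfl⟩
      · rintro ⟨x', b⟩ h
        rw [mem_filter] at h
        have h3 : x' = x := h.2
        rw [h3]
      · intro b _
        rfl
    rw [h2]
    calc G.card * u = ∑ _x ∈ G, u := by rw [sum_const, smul_eq_mul]
      _ ≤ _ := sum_le_sum hu
  have h2 : ∑ p ∈ A, num D G p.1 p.2 ≤ (s + 1) * A.card := by
    have h3 : ∀ p ∈ A, num D G p.1 p.2 ≤ s + (univ.filter fun e : V => e ∉ Sm ∧ p.1 + D p.2 e ∈ G).card := by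
      intro p _
      unfold num
      have h4 : (univ.filter fun e : V => p.1 + D p.2 e ∈ G) ⊆
          Sm ∪ univ.filter fun e : V => e ∉ Sm ∧ p.1 + D p.2 e ∈ G := by
        intro e he
        rw [mem_filter] at he
        rw [mem_union, mem_filter]
        by_cases h5 : e ∈ Sm
        · exact Or.inl h5
        · exact Or.inr ⟨mem_univ _, h5, he.2⟩
      exact (card_le_card h4).trans ((card_union_le _ _).trans (Nat.add_le_add_right hs _))
    have h4 : ∑ p ∈ A, (univ.filter fun e : V => e ∉ Sm ∧ p.1 + D p.2 e ∈ G).card ≤ G.card * u := by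
      rw [← card_sigma]
      calc (A.sigma fun p => univ.filter fun e : V => e ∉ Sm ∧ p.1 + D p.2 e ∈ G).card
          ≤ (G.sigma fun x => univ.filter fun p : V × Y => p.1 ∉ Sm ∧ x - D p.2 p.1 ∈ G ∧
              p.2 ∈ U (x - D p.2 p.1)).card := by
            refine card_le_card_of_injOn (fun q => ⟨q.1.1 + D q.1.2 q.2, (q.2, q.1.2)⟩) ?_ ?_
            · rintro ⟨⟨x, b⟩, e⟩ h
              rw [mem_coe, mem_sigma, hA, mem_filter, mem_filter] at h
              rw [mem_coe, mem_sigma, mem_filter]
              have h5 : x + D b e - D b e = x := by abel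
              refine ⟨h.2.2.2, mem_univ _, h.2.2.1, ?_, ?_⟩
              · show x + D b e - D b e ∈ G
                rw [h5]
                exact h.1.2.1
              · show b ∈ U (x + D b e - D b e)
                rw [h5]
                exact h.1.2.2
            · rintro ⟨⟨x, b⟩, e⟩ _ ⟨⟨x', b'⟩, e'⟩ _ h
              simp only [Sigma.mk.injEq, heq_eq_eq, Prod.mk.injEq] at h
              obtain ⟨h5, rfl, rfl⟩ := h
              have h6 : x = x' := add_right_cancel h5
              rw [h6]
        _ = ∑ x ∈ G, (univ.filter fun p : V × Y => p.1 ∉ Sm ∧ x - D p.2 p.1 ∈ G ∧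
              p.2 ∈ U (x - D p.2 p.1)).card := card_sigma _ _
        _ ≤ ∑ _x ∈ G, u := sum_le_sum ha
        _ = G.card * u := by rw [sum_const, smul_eq_mul]
    calc ∑ p ∈ A, num D G p.1 p.2 ≤ ∑ p ∈ A, (s + (univ.filter fun e : V => e ∉ Sm ∧ p.1 + D p.2 e ∈ G).card) :=
          sum_le_sum h3
      _ = s * A.card + ∑ p ∈ A, (univ.filter fun e : V => e ∉ Sm ∧ p.1 + D p.2 e ∈ G).card := by
          rw [sum_add_distrib, sum_const, smul_eq_mul, mul_comm]
      _ ≤ s * A.card + A.card := Nat.add_le_add_left (h4.trans h1) _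
      _ = (s + 1) * A.card := by ring
  have h3 : A.card ≤ 2 * (A.filter fun p => num D G p.1 p.2 ≤ 2 * (s + 1)).card := by
    have h4 : (A.filter fun p => ¬ num D G p.1 p.2 ≤ 2 * (s + 1)).card * (2 * (s + 1)) ≤
        (s + 1) * A.card := by
      refine le_trans ?_ h2
      calc (A.filter fun p => ¬ num D G p.1 p.2 ≤ 2 * (s + 1)).card * (2 * (s + 1))
          = ∑ _p ∈ A.filter fun p => ¬ num D G p.1 p.2 ≤ 2 * (s + 1), 2 * (s + 1) := by
            rw [sum_const, smul_eq_mul]
        _ ≤ ∑ p ∈ A.filter fun p => ¬ num D G p.1 p.2 ≤ 2 * (s + 1), num D G p.1 p.2 := by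
            refine sum_le_sum fun p hp => ?_
            rw [mem_filter] at hp
            omega
        _ ≤ ∑ p ∈ A, num D G p.1 p.2 := sum_le_sum_of_subset (filter_subset _ _)
    have h5 : (A.filter fun p => num D G p.1 p.2 ≤ 2 * (s + 1)).card +
        (A.filter fun p => ¬ num D G p.1 p.2 ≤ 2 * (s + 1)).card = A.card :=
      card_filter_add_card_filter_not _
    have h6 : 2 * (A.filter fun p => ¬ num D G p.1 p.2 ≤ 2 * (s + 1)).card ≤ A.card := by
      refine Nat.le_of_mul_le_mul_left (c := s + 1) ?_ (Nat.succ_pos s)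
      calc (s + 1) * (2 * (A.filter fun p => ¬ num D G p.1 p.2 ≤ 2 * (s + 1)).card)
          = (A.filter fun p => ¬ num D G p.1 p.2 ≤ 2 * (s + 1)).card * (2 * (s + 1)) := by ring
        _ ≤ (s + 1) * A.card := h4
    omega
  have h4 : (A.filter fun p => num D G p.1 p.2 ≤ 2 * (s + 1)).card * Fintype.card V ≤
      Fintype.card Y * (2 * (s + 1) * Fintype.card X) := by
    have h5 : (A.filter fun p => num D G p.1 p.2 ≤ 2 * (s + 1)).card ≤
        ∑ b : Y, (G.filter fun x => num D G x b ≤ 2 * (s + 1)).card := by
      rw [← card_sigma]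
      refine card_le_card_of_injOn (fun p => ⟨p.2, p.1⟩) ?_ ?_
      · rintro ⟨x, b⟩ h
        rw [mem_coe, mem_filter, hA, mem_filter] at h
        rw [mem_coe, mem_sigma, mem_filter]
        exact ⟨mem_univ _, h.1.2.1, h.2⟩
      · rintro ⟨x, b⟩ _ ⟨x', b'⟩ _ h
        simp only [Sigma.mk.injEq, heq_eq_eq] at h
        rw [h.1, h.2]
    calc (A.filter fun p => num D G p.1 p.2 ≤ 2 * (s + 1)).card * Fintype.card V
        ≤ (∑ b : Y, (G.filter fun x => num D G x b ≤ 2 * (s + 1)).card) * Fintype.card V :=
          Nat.mul_le_mul_right _ h5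
      _ = ∑ b : Y, (G.filter fun x => num D G x b ≤ 2 * (s + 1)).card * Fintype.card V := sum_mul _ _ _
      _ ≤ ∑ _b : Y, 2 * (s + 1) * Fintype.card X := sum_le_sum fun b _ => few D G b _
      _ = Fintype.card Y * (2 * (s + 1) * Fintype.card X) := by rw [sum_const, card_univ, smul_eq_mul]
  calc G.card * u * Fintype.card V ≤ A.card * Fintype.card V := Nat.mul_le_mul_right _ h1
    _ ≤ 2 * (A.filter fun p => num D G p.1 p.2 ≤ 2 * (s + 1)).card * Fintype.card V :=
        Nat.mul_le_mul_right _ h3
    _ = 2 * ((A.filter fun p => num D G p.1 p.2 ≤ 2 * (s + 1)).card * Fintype.card V) := by ring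
    _ ≤ 2 * (Fintype.card Y * (2 * (s + 1) * Fintype.card X)) := Nat.mul_le_mul_left _ h4
    _ = 4 * (s + 1) * (Fintype.card Y * Fintype.card X) := by ring

end

end Pool.Agent.Helper60.NQ
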