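import Pool.Agent.Helper99.NQ.Defs

/-!
# Q9: a pushdown program over cells becomes a pushdown program over symbols
-/

set_option autoImplicit false

namespace Pool.Agent.Helper60.NQ

open Pool.Agent.Helper19.NF Pool.Agent.Helper99.NQ

section wrap

variable {D m : ℕ} {F B Z Q Γ : Type} [Field F] [AddCommGroup B] [Module F B] {L : ℕ}

/-- The program which reads the block of a cell symbol by symbol and adds up the word. -/
def wrapW (hL : 0 < L) (e : Fin L ≃ Word D m B) (P : PProg B (Word D m B) Z Q Γ) :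
    PProg (B × Word D m B) F Z (Q × Fin L × Word D m B) Γ where
  start := (P.start, ⟨0, hL⟩, 0)
  act := fun x => match P.act x.1 with
    | .ask b nx => .ask (b, e x.2.1) (fun y =>
        if h : x.2.1.val + 1 < L then (x.1, ⟨x.2.1.val + 1, h⟩, x.2.2 + y • e x.2.1)
        else (nx (x.2.2 + y • e x.2.1), ⟨0, hL⟩, 0))
    | .push s q => .push s (q, ⟨0, hL⟩, 0)
    | .pop nx => .pop (fun s => (nx s, ⟨0, hL⟩, 0))
    | .out z => .out z

variable (hL : 0 < L) (e : Fin L ≃ Word D m B) (P : PProg B (Word D m B) Z Q Γ)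

/-- The contribution number `i`. -/
def ctW (I : B × Word D m B → F) (b : B) (i : ℕ) : Word D m B :=
  if h : i < L then I (b, e ⟨i, h⟩) • e ⟨i, h⟩ else 0

theorem sum_ctW [Fintype B] (I : B × Word D m B → F) (b : B) :
    ∑ i ∈ Finset.range L, ctW e I b i = tab I b := by
  classical
  rw [Finset.sum_range]
  unfold tab word
  rw [← e.sum_comp]
  refine Finset.sum_congr rfl fun i _ => ?_
  unfold ctW
  rw [dif_pos i.2]

/-- The configurations which occur. -/
def InvW (I : B × Word D m B → F) (c : Q × List Γ)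
    (x : (Q × Fin L × Word D m B) × List Γ) : Prop :=
  x.1.1 = c.1 ∧ x.2 = c.2 ∧
    match P.act c.1 with
    | .ask b _ => x.1.2.2 = ∑ i ∈ Finset.range x.1.2.1, ctW e I b i
    | _ => x.1.2.1.val = 0 ∧ x.1.2.2 = 0

variable {P}

theorem inv_zeroW (I : B × Word D m B → F) (c : Q × List Γ) :
    InvW e P I c ((c.1, ⟨0, hL⟩, 0), c.2) := by
  refine ⟨rfl, rfl, ?_⟩
  rcases P.act c.1 with ⟨b, nx⟩ | ⟨s, q⟩ | nx | z
  · simp
  · exact ⟨rfl, rfl⟩
  · exact ⟨rfl, rfl⟩
  · exact ⟨rfl, rfl⟩

/-- One step of the new program is no step or one step of the old one. -/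
theorem inv_stepW [Fintype B] (I : B × Word D m B → F) {c : Q × List Γ}
    {x : (Q × Fin L × Word D m B) × List Γ} (h : InvW e P I c x) :
    (InvW e P I c ((wrapW hL e P).step I x) ∧
      ((wrapW hL e P).step I x).1.2.1.val = x.1.2.1.val + 1) ∨
      (wrapW hL e P).step I x =
        (((P.step (tab I) c).1, ⟨0, hL⟩, 0), (P.step (tab I) c).2) := by
  obtain ⟨⟨q, j, s⟩, st⟩ := x
  obtain ⟨q', st'⟩ := c
  obtain ⟨h1, h2, h3⟩ := h
  simp only at h1 h2
  subst h1
  subst h2
  unfold PProg.step wrapW
  simp only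
  simp only at h3
  rcases hact : P.act q with ⟨b, nx⟩ | ⟨s', q'⟩ | nx | z
  · simp only [hact] at h3 ⊢
    by_cases hj : j.val + 1 < L
    · left
      rw [dif_pos hj]
      refine ⟨⟨rfl, rfl, ?_⟩, rfl⟩
      simp only [hact]
      rw [Finset.sum_range_succ, ← h3]
      congr 1
      unfold ctW
      rw [dif_pos j.2]
    · right
      rw [dif_neg hj]
      have h4 : s + I (b, e j) • e j = tab I b := by
        rw [← sum_ctW e I b]
        obtain ⟨r, hr⟩ : ∃ r, L = r + 1 := ⟨L - 1, by omega⟩
        have h5 : j.val = r := by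
          have := j.2
          omega
        have h6 : Finset.range L = Finset.range (j.val + 1) := by rw [h5, hr]
        rw [h6, Finset.sum_range_succ, ← h3]
        congr 1
        unfold ctW
        rw [dif_pos j.2]
      rw [h4]
  · right
    simp only
  · right
    simp only
    rcases st with _ | ⟨s', st⟩
    · simp only [hact] at h3
      have h4 : j = ⟨0, hL⟩ := Fin.ext h3.1
      rw [h4, h3.2]
    · rfl
  · right
    simp only [hact] at h3 ⊢
    have h4 : j = ⟨0, hL⟩ := Fin.ext h3.1
    rw [h4, h3.2]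

/-- Every configuration of the new program belongs to a configuration of the old one. -/
theorem inv_allW [Fintype B] (I : B × Word D m B → F) (t : ℕ) :
    ∃ r, InvW e P I (P.conf (tab I) r) ((wrapW hL e P).conf I t) := by
  induction t with
  | zero => exact ⟨0, inv_zeroW hL e I (P.start, [])⟩
  | succ t ih =>
    obtain ⟨r, hr⟩ := ih
    have h1 : (wrapW hL e P).conf I (t + 1) =
        (wrapW hL e P).step I ((wrapW hL e P).conf I t) :=
      Function.iterate_succ_apply' _ _ _
    rcases inv_stepW hL e I hr with h2 | h2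
    · exact ⟨r, by rw [h1]; exact h2.1⟩
    · refine ⟨r + 1, ?_⟩
      have h3 : P.conf (tab I) (r + 1) = P.step (tab I) (P.conf (tab I) r) :=
        Function.iterate_succ_apply' _ _ _
      rw [h1, h2, h3]
      exact inv_zeroW hL e I _

/-- The new program finishes every step of the old one. -/
theorem reach_stepW [Fintype B] (I : B × Word D m B → F) (c : Q × List Γ) :
    ∀ (r : ℕ) (x : (Q × Fin L × Word D m B) × List Γ),
      InvW e P I c x → L ≤ x.1.2.1.val + r →
      ∃ t, ((wrapW hL e P).step I)^[t] x =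
        (((P.step (tab I) c).1, ⟨0, hL⟩, 0), (P.step (tab I) c).2) := by
  intro r
  induction r with
  | zero =>
    intro x _ hr
    have := x.1.2.1.2
    omega
  | succ r ih =>
    intro x hx hr
    rcases inv_stepW hL e I hx with h2 | h2
    · obtain ⟨t, ht⟩ := ih _ h2.1 (by omega)
      exact ⟨t + 1, by rw [Function.iterate_succ_apply]; exact ht⟩
    · exact ⟨1, h2⟩

theorem reach_allW [Fintype B] (I : B × Word D m B → F) (r : ℕ) :
    ∃ t, (wrapW hL e P).conf I t =
      (((P.conf (tab I) r).1, ⟨0, hL⟩, 0), (P.conf (tab I) r).2) := by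
  induction r with
  | zero => exact ⟨0, rfl⟩
  | succ r ih =>
    obtain ⟨t, ht⟩ := ih
    obtain ⟨t', ht'⟩ := reach_stepW hL e I (P.conf (tab I) r) L
      (((P.conf (tab I) r).1, ⟨0, hL⟩, 0), (P.conf (tab I) r).2)
      (inv_zeroW hL e I _) (by omega)
    refine ⟨t' + t, ?_⟩
    unfold PProg.conf at ht ht' ⊢
    rw [Function.iterate_add_apply, ht, ht', ← Function.iterate_succ_apply' (P.step (tab I))]

/-- The new program has the same result. -/
theorem wrapW_outputs [Fintype B] (I : B × Word D m B → F) {z : Z}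
    (h : P.Outputs (tab I) z) : (wrapW (F := F) hL e P).Outputs I z := by
  obtain ⟨r, hr⟩ := h
  obtain ⟨t, ht⟩ := reach_allW hL e I r
  refine ⟨t, ?_⟩
  rw [ht]
  show (match P.act (P.conf (tab I) r).1 with
    | .ask b nx => _
    | .push s q => _
    | .pop nx => _
    | .out z => _) = _
  rw [hr]

/-- The new program queries only symbols of cells which the old one queries. -/
theorem wrapW_asks [Fintype B] (I : B × Word D m B → F) {x : B × Word D m B}
    (h : (wrapW (F := F) hL e P).Asks I x) : P.Asks (tab I) x.1 := by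
  obtain ⟨b, l⟩ := x
  obtain ⟨t, nx, ht⟩ := h
  obtain ⟨r, h1, -, -⟩ := inv_allW hL e I t
  have h2 : (match P.act ((wrapW hL e P).conf I t).1.1 with
    | .ask b nx => PAct.ask (b, e ((wrapW hL e P).conf I t).1.2.1) (fun y =>
        if h : ((wrapW hL e P).conf I t).1.2.1.val + 1 < L then
          (((wrapW hL e P).conf I t).1.1, ⟨((wrapW hL e P).conf I t).1.2.1.val + 1, h⟩,
            ((wrapW hL e P).conf I t).1.2.2 + y • e ((wrapW hL e P).conf I t).1.2.1)
        else (nx (((wrapW hL e P).conf I t).1.2.2 + y • e ((wrapW hL e P).conf I t).1.2.1),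
          ⟨0, hL⟩, 0))
    | .push s q => .push s (q, ⟨0, hL⟩, 0)
    | .pop nx => .pop (fun s => (nx s, ⟨0, hL⟩, 0))
    | .out z => .out z) = PAct.ask (b, l) nx := ht
  rw [h1] at h2
  rcases hact : P.act (P.conf (tab I) r).1 with ⟨b', nx'⟩ | ⟨s, q⟩ | nx' | z
  · rw [hact] at h2
    simp only [PAct.ask.injEq, Prod.mk.injEq] at h2
    obtain ⟨⟨rfl, -⟩, -⟩ := h2
    exact ⟨r, nx', hact⟩
  · rw [hact] at h2
    cases h2
  · rw [hact] at h2
    cases h2
  · rw [hact] at h2
    cases h2

end wrap

/-- Q9: a pushdown program over cells becomes one over symbols: it reads the block symbol by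
symbol. -/
theorem symbols_of_cells {D m : ℕ} {F B Z Q Γ : Type} [Field F] [Finite F] [AddCommGroup B]
    [Module F B] [Fintype B] [Finite Q] (P : PProg B (Word D m B) Z Q Γ) :
    ∃ (Q' : Type) (_ : Finite Q') (P' : PProg (B × Word D m B) F Z Q' Γ),
      Nat.card Q' ≤ Nat.card Q * (Nat.card (Word D m B) + 1) * Nat.card (Word D m B) ∧
      ∀ I : B × Word D m B → F, (∀ z, P.Outputs (tab I) z → P'.Outputs I z) ∧
        ∀ x, P'.Asks I x → P.Asks (tab I) x.1 := by
  classical
  have hL : 0 < Fintype.card (Word D m B) := Fintype.card_pos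
  let e : Fin (Fintype.card (Word D m B)) ≃ Word D m B := (Fintype.equivFin _).symm
  refine ⟨Q × Fin (Fintype.card (Word D m B)) × Word D m B, inferInstance, wrapW hL e P, ?_,
    fun I => ⟨fun z hz => wrapW_outputs hL e I hz, fun x hx => wrapW_asks hL e I hx⟩⟩
  rw [Nat.card_prod, Nat.card_prod, Nat.card_eq_fintype_card (α := Fin _), Fintype.card_fin,
    Nat.card_eq_fintype_card (α := Word D m B), mul_assoc]
  exact Nat.mul_le_mul_left _ (Nat.mul_le_mul_right _ (Nat.le_succ _))

end Pool.Agent.Helper60.NQ
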